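import Pool.Agent.J6H9.PL.Stm
import Pool.Agent.J6H45.CoordRestr.Factor

/-!
# Small `C^1` perturbations of the identity are diffeomorphisms
-/

set_option autoImplicit false

open Pool.Agent.J6H45.CoordRestr

namespace Pool.Agent.J6H19.PL

theorem main : Pool.Agent.J6H9.PL.S_Sm := by
  intro n u hu hlip
  have hhalf : (1 / 2 : NNReal) < 1 := by
    rw [div_lt_iff₀ (by norm_num)]
    norm_num
  obtain ⟨h, hh⟩ := exists_homeo_of_lip hhalf hlip
  have hfun : (h : E n → E n) = fun x => x + u x := funext hh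
  have hnorm : ∀ a, ‖-(fderiv ℝ u a)‖ < 1 := by
    intro a
    rw [norm_neg]
    refine (norm_fderiv_le_of_lipschitz ℝ (x₀ := a) hlip).trans_lt ?_
    exact_mod_cast hhalf
  have hC : ContDiff ℝ 1 (h : E n → E n) := by
    rw [hfun]
    exact contDiff_id.add hu
  have hS : ContDiff ℝ 1 (h.symm : E n → E n) := by
    refine h.contDiff_symm (f₀' := fun a => ContinuousLinearEquiv.unitsEquiv ℝ (E n)
      (Units.oneSub _ (hnorm a))) ?_ hC
    intro a
    have e : ((ContinuousLinearEquiv.unitsEquiv ℝ (E n) (Units.oneSub _ (hnorm a)) :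
        E n ≃L[ℝ] E n) : E n →L[ℝ] E n) = ContinuousLinearMap.id ℝ (E n) + fderiv ℝ u a := by
      ext1 x
      show ((Units.oneSub _ (hnorm a) : (E n →L[ℝ] E n)ˣ) : E n →L[ℝ] E n) x = _
      rw [Units.val_oneSub]
      simp
    rw [e, hfun]
    exact (hasFDerivAt_id a).add ((hu.differentiable (by norm_num)) a).hasFDerivAt
  exact ⟨h, ⟨by exact_mod_cast hC, by exact_mod_cast hS⟩, hh⟩

end Pool.Agent.J6H19.PL
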